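import Pool.Agent.helper90.FL.Spec

/-! # Row FIN of project FL -/

set_option autoImplicit false

namespace Pool.Agent.helper90.FL

open Finset Polynomial
open scoped Classical

theorem FIN (h1 : REL_stmt) (h2 : POS_stmt) (h3 : SCL_stmt) (h4 : ORD_stmt) (h5 : BND_stmt) (h6 : BRL_stmt) (h7 : CNV_stmt) (h8 : POL_stmt) : FIN_stmt := by
  intro m k n _ hn hk hm
  have hkn : 2 * k ≤ n := by
    rw [hn]
    exact Nat.mul_le_mul_right k hm
  have hR : Rel (src n) (tgt n k) := h1 _ _ (src n) (tgt n k)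
  have hSC : SC (src n) (tgt n k) (2 * k + 2) := h3 _ _ (src n) (tgt n k) (ord n) (2 * k + 2) (h4 n) (h5 n k hk hkn)
  refine ⟨PF (src n) (tgt n k) univ ∅, ?_, ?_⟩
  · intro q hq
    have hP : ∃ F : ℤ[X], Pol (src n) (tgt n k) univ ∅ F := h8 _ _ (src n) (tgt n k) univ ∅
    have hF : Pol (src n) (tgt n k) univ ∅ (PF (src n) (tgt n k) univ ∅) := by
      unfold PF
      rw [dif_pos hP]
      exact hP.choose_spec
    rw [hF q hq, h7 n k q]
  · intro x hx
    have hk0 : (0 : ℝ) ≤ k := Nat.cast_nonneg k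
    have hw : ((2 * k + 2 : ℕ) : ℝ) < x := by
      push_cast
      exact hx
    have h := h2 _ _ (src n) (tgt n k) hR (2 * k + 2) hSC x hw (by linarith) univ ∅
    exact h.2 fun S _ => h6 n k hk hkn S

end Pool.Agent.helper90.FL
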